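import Pool.Agent.W610.HY.Fin
import Pool.Agent.V11321.HN.Ell

/-!
Cauchy integrals of the resolvent over circles with multipliers.
-/

set_option autoImplicit false

namespace Pool.Agent.V11321.HL

open MeasureTheory Set Metric
open Pool.Agent.W610.HY
open Pool.Agent.V11321.HN (Ell)

/-- the angles -/
noncomputable def ang : Measure ℝ := volume.restrict (Ioc (0:ℝ) (2 * Real.pi))

instance : IsFiniteMeasure ang := by
  unfold ang
  exact ⟨by rw [Measure.restrict_apply_univ]; exact measure_Ioc_lt_top⟩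

variable {A : Type} [NormedRing A] [NormedAlgebra ℂ A] [CompleteSpace A]

/-- multipliers -/
structure Mlt (T : A) (c : ℂ) (r : ℝ) (h : ℝ → ℂ) : Prop where
  pos : 0 < r
  meas : Measurable h
  res : ∀ᵐ θ ∂ang, circleMap c r θ ∈ resolventSet ℂ T
  le_one : ∀ᵐ θ ∂ang, ‖h θ‖ ≤ 1
  bound : ∀ᵐ θ ∂ang, ‖h θ‖ * ‖resolvent T (circleMap c r θ)‖ ≤ 1

/-- the Cauchy integral of the resolvent -/
noncomputable def AI (T : A) (c : ℂ) (r : ℝ) (h : ℝ → ℂ) : A :=
  ∫ θ, (h θ * circleMap 0 1 θ) • resolvent T (circleMap c r θ) ∂ang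

/-- the scalar Cauchy integral -/
noncomputable def CI (c : ℂ) (r : ℝ) (h : ℝ → ℂ) (w : ℂ) : ℂ :=
  ∫ θ, h θ * (circleMap 0 1 θ / (circleMap c r θ - w)) ∂ang

/-- the auxiliary integral -/
noncomputable def YI (T : A) (c : ℂ) (r : ℝ) (h : ℝ → ℂ) (w : ℂ) : A :=
  ∫ θ, (h θ * (circleMap 0 1 θ / (circleMap c r θ - w))) • resolvent T (circleMap c r θ) ∂ang

theorem cm_norm (θ : ℝ) : ‖circleMap 0 1 θ‖ = 1 := by
  rw [norm_circleMap_zero, abs_one]

theorem cm_dist (c : ℂ) {r : ℝ} (hr : 0 < r) (θ : ℝ) : ‖circleMap c r θ - c‖ = r := by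
  rw [circleMap_sub_center, norm_circleMap_zero, abs_of_pos hr]

theorem gap {c : ℂ} {r : ℝ} (hr : 0 < r) (w : ℂ) (θ : ℝ) :
    |‖w - c‖ - r| ≤ ‖circleMap c r θ - w‖ := by
  have h1 := abs_norm_sub_norm_le (w - c) (circleMap c r θ - c)
  rw [cm_dist c hr, sub_sub_sub_cancel_right] at h1
  rw [norm_sub_rev (circleMap c r θ) w]
  exact h1

theorem res_meas (T : A) (c : ℂ) (r : ℝ) :
    StronglyMeasurable (fun θ : ℝ => resolvent T (circleMap c r θ)) :=
  (Fin.hMEAS A T).comp_measurable (continuous_circleMap c r).measurable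

theorem int_AI {T : A} {c : ℂ} {r : ℝ} {h : ℝ → ℂ} (M : Mlt T c r h) :
    Integrable (fun θ => (h θ * circleMap 0 1 θ) • resolvent T (circleMap c r θ)) ang := by
  refine Integrable.of_bound (C := 1) ?_ ?_
  · exact ((M.meas.mul (continuous_circleMap 0 1).measurable).aestronglyMeasurable).smul
      (res_meas T c r).aestronglyMeasurable
  · filter_upwards [M.bound] with θ hθ
    refine (norm_smul_le _ _).trans ?_
    rw [norm_mul, cm_norm, mul_one]
    exact hθ

omit [CompleteSpace A] in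
theorem int_CI {T : A} {c : ℂ} {r : ℝ} {h : ℝ → ℂ} (M : Mlt T c r h) {w : ℂ}
    (hw : ‖w - c‖ ≠ r) :
    Integrable (fun θ => h θ * (circleMap 0 1 θ / (circleMap c r θ - w))) ang := by
  have hd : 0 < |‖w - c‖ - r| := abs_pos.2 (sub_ne_zero.2 hw)
  refine Integrable.of_bound (C := |‖w - c‖ - r|⁻¹) ?_ ?_
  · exact (M.meas.mul ((continuous_circleMap 0 1).measurable.div
      ((continuous_circleMap c r).measurable.sub_const w))).aestronglyMeasurable
  · filter_upwards [M.le_one] with θ hθ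
    rw [norm_mul, norm_div, cm_norm, one_div]
    have h1 : ‖circleMap c r θ - w‖⁻¹ ≤ |‖w - c‖ - r|⁻¹ := inv_anti₀ hd (gap M.pos w θ)
    calc ‖h θ‖ * ‖circleMap c r θ - w‖⁻¹ ≤ 1 * |‖w - c‖ - r|⁻¹ :=
          mul_le_mul hθ h1 (by positivity) zero_le_one
      _ = _ := one_mul _

theorem int_YI {T : A} {c : ℂ} {r : ℝ} {h : ℝ → ℂ} (M : Mlt T c r h) {w : ℂ}
    (hw : ‖w - c‖ ≠ r) :
    Integrable (fun θ => (h θ * (circleMap 0 1 θ / (circleMap c r θ - w))) •
      resolvent T (circleMap c r θ)) ang := by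
  have hd : 0 < |‖w - c‖ - r| := abs_pos.2 (sub_ne_zero.2 hw)
  refine Integrable.of_bound (C := |‖w - c‖ - r|⁻¹) ?_ ?_
  · exact ((M.meas.mul ((continuous_circleMap 0 1).measurable.div
      ((continuous_circleMap c r).measurable.sub_const w))).aestronglyMeasurable).smul
      (res_meas T c r).aestronglyMeasurable
  · filter_upwards [M.bound] with θ hθ
    refine (norm_smul_le _ _).trans ?_
    rw [norm_mul, norm_div, cm_norm, one_div]
    have h1 : ‖circleMap c r θ - w‖⁻¹ ≤ |‖w - c‖ - r|⁻¹ := inv_anti₀ hd (gap M.pos w θ)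
    calc ‖h θ‖ * ‖circleMap c r θ - w‖⁻¹ * ‖resolvent T (circleMap c r θ)‖
        = (‖h θ‖ * ‖resolvent T (circleMap c r θ)‖) * ‖circleMap c r θ - w‖⁻¹ := by ring
      _ ≤ 1 * |‖w - c‖ - r|⁻¹ := mul_le_mul hθ h1 (by positivity) zero_le_one
      _ = _ := one_mul _

omit [CompleteSpace A] in
theorem res_comm {T Q : A} (hQ : Q * T = T * Q) (z : ℂ) : Q * resolvent T z = resolvent T z * Q := by
  unfold resolvent
  by_cases hu : IsUnit (algebraMap ℂ A z - T)
  · obtain ⟨u, hu⟩ := hu
    rw [← hu, Ring.inverse_unit]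
    have h1 : Commute Q (u : A) := by
      rw [hu]
      have h2 : Commute Q (algebraMap ℂ A z) := (Algebra.commutes z Q).symm
      exact h2.sub_right hQ
    exact h1.units_inv_right
  · rw [Ring.inverse_non_unit _ hu, mul_zero, zero_mul]

theorem AI_comm {T Q : A} (hQ : Q * T = T * Q) {c : ℂ} {r : ℝ} {h : ℝ → ℂ} (M : Mlt T c r h) :
    Q * AI T c r h = AI T c r h * Q := by
  unfold AI
  rw [← integral_const_mul_of_integrable (int_AI M), ← integral_mul_const_of_integrable (int_AI M)]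
  simp_rw [mul_smul_comm, smul_mul_assoc, res_comm hQ]

theorem YI_comm {T Q : A} (hQ : Q * T = T * Q) {c : ℂ} {r : ℝ} {h : ℝ → ℂ} (M : Mlt T c r h)
    {w : ℂ} (hw : ‖w - c‖ ≠ r) : Q * YI T c r h w = YI T c r h w * Q := by
  unfold YI
  rw [← integral_const_mul_of_integrable (int_YI M hw),
    ← integral_mul_const_of_integrable (int_YI M hw)]
  simp_rw [mul_smul_comm, smul_mul_assoc, res_comm hQ]

/-- the main identity -/
theorem ident {T : A} {c : ℂ} {r : ℝ} {h : ℝ → ℂ} (M : Mlt T c r h) {w : ℂ} (hw : ‖w - c‖ ≠ r) :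
    (algebraMap ℂ A w - T) * YI T c r h w = CI c r h w • (1 : A) - AI T c r h := by
  have hd : 0 < |‖w - c‖ - r| := abs_pos.2 (sub_ne_zero.2 hw)
  unfold YI CI AI
  rw [← integral_const_mul_of_integrable (int_YI M hw), ← integral_smul_const,
    ← integral_sub ((int_CI M hw).smul_const _) (int_AI M)]
  refine integral_congr_ae ?_
  filter_upwards [M.res] with θ hθ
  have hne : circleMap c r θ - w ≠ 0 := by
    intro h0
    have := gap (c := c) M.pos w θ
    rw [h0, norm_zero] at this
    linarith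
  have hres := Pool.Agent.W816.HI.res_mul hθ
  have e2 : (algebraMap ℂ A w - T) * resolvent T (circleMap c r θ) =
      1 - (circleMap c r θ - w) • resolvent T (circleMap c r θ) := by
    have : algebraMap ℂ A w - T = (algebraMap ℂ A (circleMap c r θ) - T) -
        (circleMap c r θ - w) • (1 : A) := by
      rw [sub_smul, ← Algebra.algebraMap_eq_smul_one, ← Algebra.algebraMap_eq_smul_one]
      abel
    rw [this, sub_mul, hres, smul_mul_assoc, one_mul]
  rw [mul_smul_comm, e2, smul_sub, smul_smul]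
  congr 2
  field_simp

/-- product over concentric circles -/
theorem prod {T : A} {c : ℂ} {s s' : ℝ} {h g : ℝ → ℂ} (hs : s < s') (M : Mlt T c s h)
    (N : Mlt T c s' g) (κ : ℂ) (hin : ∀ w, s < ‖w - c‖ → CI c s h w = 0)
    (hout : ∀ w, ‖w - c‖ < s' → CI c s' g w = κ) :
    AI T c s h * AI T c s' g = κ • AI T c s h := by
  have hd : 0 < s' - s := by linarith
  have hgap : ∀ θ φ, s' - s ≤ ‖circleMap c s' φ - circleMap c s θ‖ := by
    intro θ φ
    have := gap (c := c) N.pos (circleMap c s θ) φ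
    rw [cm_dist c M.pos] at this
    have h2 : s' - s ≤ |s - s'| := by rw [abs_sub_comm]; exact le_abs_self _
    linarith
  have step1 : AI T c s h * AI T c s' g =
      ∫ φ, ∫ θ, ((g φ * circleMap 0 1 φ) * (h θ * (circleMap 0 1 θ /
        (circleMap c s' φ - circleMap c s θ)))) • resolvent T (circleMap c s θ) ∂ang ∂ang := by
    have e0 : AI T c s h * AI T c s' g =
      ∫ φ, AI T c s h * ((g φ * circleMap 0 1 φ) • resolvent T (circleMap c s' φ)) ∂ang := by
      rw [integral_const_mul_of_integrable (int_AI N)]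
      rfl
    rw [e0]
    refine integral_congr_ae ?_
    filter_upwards [N.res] with φ hφ
    have hw : s < ‖circleMap c s' φ - c‖ := by rw [cm_dist c N.pos]; exact hs
    have h1 := ident M (w := circleMap c s' φ) hw.ne'
    rw [hin _ hw, zero_smul, zero_sub] at h1
    have hY : (algebraMap ℂ A (circleMap c s' φ) - T) * YI T c s h (circleMap c s' φ) =
        YI T c s h (circleMap c s' φ) * (algebraMap ℂ A (circleMap c s' φ) - T) := by
      have h2 := YI_comm (rfl : T * T = T * T) M (w := circleMap c s' φ) hw.ne'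
      rw [sub_mul, mul_sub, h2, Algebra.commutes]
    have h3 : AI T c s h * resolvent T (circleMap c s' φ) = - YI T c s h (circleMap c s' φ) := by
      have h4 : AI T c s h = - (YI T c s h (circleMap c s' φ) *
          (algebraMap ℂ A (circleMap c s' φ) - T)) := by
        rw [← hY, h1, neg_neg]
      rw [h4, neg_mul, mul_assoc, Pool.Agent.W816.HI.res_mul hφ, mul_one]
    rw [mul_smul_comm, h3]
    unfold YI
    rw [← integral_neg, ← integral_smul]
    refine integral_congr_ae (Filter.Eventually.of_forall fun θ => ?_)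
    simp only
    rw [← neg_smul, smul_smul]
    congr 1
    have h5 : circleMap c s' φ - circleMap c s θ = -(circleMap c s θ - circleMap c s' φ) := by ring
    rw [h5, div_neg]
    ring
  rw [step1, integral_integral_swap]
  · unfold AI
    rw [← integral_smul]
    refine integral_congr_ae (Filter.Eventually.of_forall fun θ => ?_)
    simp only
    have hz : ‖circleMap c s θ - c‖ < s' := by rw [cm_dist c M.pos]; exact hs
    rw [integral_smul_const, smul_smul]
    congr 1
    have h1 := hout _ hz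
    unfold CI at h1
    rw [← h1, mul_comm, ← integral_const_mul]
    congr 1
    funext φ
    ring
  · have hm1 : Measurable (fun p : ℝ × ℝ => (g p.1 * circleMap 0 1 p.1) * (h p.2 *
        (circleMap 0 1 p.2 / (circleMap c s' p.1 - circleMap c s p.2)))) := by
      have m1 : Measurable (fun p : ℝ × ℝ => p.1) := measurable_fst
      have m2 : Measurable (fun p : ℝ × ℝ => p.2) := measurable_snd
      exact ((N.meas.comp m1).mul ((continuous_circleMap 0 1).measurable.comp m1)).mul
        ((M.meas.comp m2).mul (((continuous_circleMap 0 1).measurable.comp m2).div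
        (((continuous_circleMap c s').measurable.comp m1).sub
        ((continuous_circleMap c s).measurable.comp m2))))
    refine Integrable.of_bound (C := (s' - s)⁻¹) ?_ ?_
    · exact hm1.aestronglyMeasurable.smul
        ((res_meas T c s).comp_measurable measurable_snd).aestronglyMeasurable
    · have b1 := Measure.quasiMeasurePreserving_fst (μ := ang) (ν := ang) |>.ae N.le_one
      have b2 := Measure.quasiMeasurePreserving_snd (μ := ang) (ν := ang) |>.ae M.bound
      filter_upwards [b1, b2] with p h1 h2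
      refine (norm_smul_le _ _).trans ?_
      simp only [norm_mul, norm_div, cm_norm, mul_one, one_div]
      have h3 : ‖circleMap c s' p.1 - circleMap c s p.2‖⁻¹ ≤ (s' - s)⁻¹ := inv_anti₀ hd (hgap _ _)
      calc ‖g p.1‖ * (‖h p.2‖ * ‖circleMap c s' p.1 - circleMap c s p.2‖⁻¹) *
            ‖resolvent T (circleMap c s p.2)‖
          = ‖g p.1‖ * ((‖h p.2‖ * ‖resolvent T (circleMap c s p.2)‖) *
            ‖circleMap c s' p.1 - circleMap c s p.2‖⁻¹) := by ring
        _ ≤ 1 * (1 * (s' - s)⁻¹) := by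
            refine mul_le_mul h1 (mul_le_mul h2 h3 (by positivity) zero_le_one) (by positivity)
              zero_le_one
        _ = _ := by ring

/-- multipliers analytic inside -/
def In (T : A) (c : ℂ) (r : ℝ) (h : ℝ → ℂ) : Prop :=
  Mlt T c r h ∧ (∀ w, r < ‖w - c‖ → CI c r h w = 0) ∧ ∀ w, ‖w - c‖ < r → CI c r h w ≠ 0

/-- multipliers analytic outside -/
def Out (T : A) (c : ℂ) (r : ℝ) (g : ℝ → ℂ) (κ : ℂ) : Prop :=
  Mlt T c r g ∧ (∀ w, ‖w - c‖ < r → CI c r g w = κ) ∧ ∀ w, r < ‖w - c‖ → κ - CI c r g w ≠ 0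

theorem ell_in {T : A} {c : ℂ} {r : ℝ} {h : ℝ → ℂ} (H : In T c r h) {μ : ℂ} (hμ : ‖μ - c‖ < r) :
    Ell T μ (AI T c r h) := by
  refine ⟨CI c r h μ, H.2.2 μ hμ, YI T c r h μ, YI_comm rfl H.1 hμ.ne, ?_⟩
  rw [ident H.1 hμ.ne]
  abel

theorem ell_out {T : A} {c : ℂ} {r : ℝ} {g : ℝ → ℂ} {κ : ℂ} (H : Out T c r g κ) {μ : ℂ}
    (hμ : r < ‖μ - c‖) : Ell T μ (κ • (1 : A) - AI T c r g) := by
  refine ⟨κ - CI c r g μ, H.2.2 μ hμ, - YI T c r g μ, ?_, ?_⟩
  · rw [mul_neg, neg_mul, YI_comm rfl H.1 hμ.ne']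
  · rw [mul_neg, ident H.1 hμ.ne', sub_smul]
    abel

theorem zero_prod {T : A} {c : ℂ} {s s' : ℝ} {h g : ℝ → ℂ} {κ : ℂ} (hs : s < s')
    (H : In T c s h) (G : Out T c s' g κ) :
    (κ • (1 : A) - AI T c s' g) * AI T c s h = 0 := by
  have h1 := prod hs H.1 G.1 κ H.2.1 G.2.1
  have h2 : AI T c s h * T = T * AI T c s h := (AI_comm (rfl : T * T = T * T) H.1).symm
  have h3 := AI_comm h2 G.1
  rw [sub_mul, smul_mul_assoc, one_mul, ← h3, h1, sub_self]

end Pool.Agent.V11321.HL
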