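import Pool.Agent.V11321.HL.Outer
import Pool.Agent.V11321.HN.Chain

/-!
Nests of hyperinvariant subspaces around a point: log-integrable resolvents.
-/

set_option autoImplicit false

namespace Pool.Agent.V11321.HL

open MeasureTheory Set Metric Filter Topology
open Pool.Agent.W610.HY
open Pool.Agent.V11321.HN (Ell Hyp InfChain)

variable {X : Type} [NormedAddCommGroup X] [NormedSpace ℂ X]

/-- nests of hyperinvariant subspaces around `c` -/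
def NestR (T : X →L[ℂ] X) (c : ℂ) (ρ : ℝ) : Prop := ∃ V : ℝ → Submodule ℂ X,
  (∀ t : ℝ, Hyp T (V t)) ∧ (∀ t t' : ℝ, t ≤ t' → V t ≤ V t') ∧
  (∀ t t' : ℝ, 0 ≤ t → (∃ μ ∈ spectrum ℂ T, t < ‖μ - c‖ ∧ ‖μ - c‖ < t' ∧ ‖μ - c‖ < ρ) →
    V t ≠ V t') ∧
  (∀ t : ℝ, (∃ μ ∈ spectrum ℂ T, ‖μ - c‖ < t ∧ ‖μ - c‖ < ρ) → V t ≠ ⊥) ∧
  (∀ t : ℝ, 0 ≤ t → t < ρ → (∃ μ ∈ spectrum ℂ T, t < ‖μ - c‖) → V t ≠ ⊤)

variable [CompleteSpace X]

/-- common kernels -/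
noncomputable def WW (T : X →L[ℂ] X) (c : ℂ) (t : ℝ) : Submodule ℂ X where
  carrier := {x | ∀ (r : ℝ) (g : ℝ → ℂ) (κ : ℂ), t < r → Out T c r g κ →
    (κ • (1 : X →L[ℂ] X) - AI T c r g) x = 0}
  add_mem' := by
    intro x y hx hy r g κ h1 h2
    rw [map_add, hx r g κ h1 h2, hy r g κ h1 h2, add_zero]
  zero_mem' := by
    intro r g κ _ _
    rw [map_zero]
  smul_mem' := by
    intro a x hx r g κ h1 h2
    rw [map_smul, hx r g κ h1 h2, smul_zero]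

theorem WW_hyp (T : X →L[ℂ] X) (c : ℂ) (t : ℝ) : Hyp T (WW T c t) := by
  constructor
  · have : (WW T c t : Set X) = ⋂ r : ℝ, ⋂ g : ℝ → ℂ, ⋂ κ : ℂ, ⋂ _ : t < r, ⋂ _ : Out T c r g κ,
        {x | (κ • (1 : X →L[ℂ] X) - AI T c r g) x = 0} := by
      ext x
      simp only [Set.mem_iInter, Set.mem_setOf_eq]
      exact Iff.rfl
    rw [this]
    exact isClosed_iInter fun r => isClosed_iInter fun g => isClosed_iInter fun κ =>
      isClosed_iInter fun _ => isClosed_iInter fun _ =>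
      isClosed_eq (ContinuousLinearMap.continuous _) continuous_const
  · intro Q hQ x hx r g κ h1 h2
    have h3 : Q * (κ • (1 : X →L[ℂ] X) - AI T c r g) = (κ • (1 : X →L[ℂ] X) - AI T c r g) * Q := by
      rw [mul_sub, sub_mul, AI_comm hQ h2.1, mul_smul_comm, smul_mul_assoc, mul_one, one_mul]
    have h4 := congrArg (fun B : X →L[ℂ] X => B x) h3
    change Q ((κ • (1 : X →L[ℂ] X) - AI T c r g) x) = (κ • (1 : X →L[ℂ] X) - AI T c r g) (Q x) at h4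
    rw [← h4, hx r g κ h1 h2, map_zero]

theorem WW_mono (T : X →L[ℂ] X) (c : ℂ) {t t' : ℝ} (ht : t ≤ t') : WW T c t ≤ WW T c t' := by
  intro x hx r g κ h1 h2
  exact hx r g κ (ht.trans_lt h1) h2

theorem in_mem (T : X →L[ℂ] X) (c : ℂ) {s t : ℝ} (hst : s ≤ t) {h : ℝ → ℂ} (H : In T c s h)
    (x : X) : AI T c s h x ∈ WW T c t := by
  intro r g κ h1 h2
  have h3 := zero_prod (hst.trans_lt h1) H h2
  exact congrArg (fun B : X →L[ℂ] X => B x) h3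

theorem nestR (T : X →L[ℂ] X) (c : ℂ) (ρ : ℝ)
    (hgood : ∀ ρ₁ ρ₂ : ℝ, 0 ≤ ρ₁ → ρ₁ < ρ₂ → ρ₂ ≤ ρ → ∃ r : ℝ, ρ₁ < r ∧ r < ρ₂ ∧
      (∃ h, In T c r h) ∧ ∃ g κ, Out T c r g κ) : NestR T c ρ := by
  refine ⟨WW T c, WW_hyp T c, fun t t' ht => WW_mono T c ht, ?_, ?_, ?_⟩
  · rintro t t' ht ⟨μ, hμ, h1, h2, h3⟩ heq
    obtain ⟨r, hr1, hr2, -, g, κ, hG⟩ := hgood t ‖μ - c‖ ht h1 h3.le
    obtain ⟨s, hs1, hs2, ⟨h, hH⟩, -⟩ := hgood ‖μ - c‖ (min t' ρ) (norm_nonneg _) (lt_min h2 h3)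
      (min_le_right _ _)
    have hE := (ell_out hG hr2).mul ((ell_in hH hs1).mul (ell_out hG hr2))
    apply hE.ne hμ
    ext x
    have h4 : AI T c s h ((κ • (1 : X →L[ℂ] X) - AI T c r g) x) ∈ WW T c t' :=
      in_mem T c (hs2.le.trans (min_le_left _ _)) hH _
    rw [← heq] at h4
    exact h4 r g κ hr1 hG
  · rintro t ⟨μ, hμ, h1, h2⟩ heq
    obtain ⟨s, hs1, hs2, ⟨h, hH⟩, -⟩ := hgood ‖μ - c‖ (min t ρ) (norm_nonneg _) (lt_min h1 h2)
      (min_le_right _ _)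
    apply (ell_in hH hs1).ne hμ
    ext x
    have h4 : AI T c s h x ∈ WW T c t := in_mem T c (hs2.le.trans (min_le_left _ _)) hH _
    rw [heq, Submodule.mem_bot] at h4
    exact h4
  · rintro t ht htρ ⟨μ, hμ, h1⟩ heq
    obtain ⟨r, hr1, hr2, -, g, κ, hG⟩ := hgood t (min ‖μ - c‖ ρ) ht (lt_min h1 htρ)
      (min_le_right _ _)
    apply (ell_out hG (hr2.trans_le (min_le_left _ _))).ne hμ
    ext x
    have h4 : x ∈ WW T c t := by rw [heq]; trivial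
    exact h4 r g κ hr1 hG

/-- log-integrable resolvent -/
theorem nest_log (T : X →L[ℂ] X) (U : Set ℂ) (hσ : volume (spectrum ℂ T ∩ U) = 0)
    (hI : IntegrableOn (fun z : ℂ => Real.posLog ‖resolvent T z‖) U) (c : ℂ) (ρ : ℝ)
    (hU : ball c ρ ⊆ U) (hUm : MeasurableSet U) : NestR T c ρ := by
  refine nestR T c ρ fun ρ₁ ρ₂ h0 h1 h2 => ?_
  have hae : ∀ᵐ z ∂(volume.restrict U), z ∈ resolventSet ℂ T := by
    rw [ae_restrict_iff' hUm, ae_iff]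
    refine measure_mono_null ?_ hσ
    intro z hz
    simp only [Set.mem_setOf_eq, Classical.not_imp] at hz
    exact ⟨hz.2, hz.1⟩
  have hfin := Masm.hypm (X →L[ℂ] X) (resolventSet ℂ T) (fun z => resolvent T z) U hae hI
  have hfin' : (∫⁻ z in ball c ρ₂, mr T z) ≠ ⊤ :=
    ne_top_of_le_ne_top hfin (lintegral_mono_set ((ball_subset_ball h2).trans hU))
  obtain ⟨r, hr1, hr2, hr3⟩ := circ (mr T) (mr_meas T) c ρ₁ ρ₂ h0 h1 hfin'
  have hr : 0 < r := h0.trans_lt hr1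
  exact ⟨r, hr1, hr2, exists_in T c hr hr3, exists_out T c hr hr3⟩

/-- infinite chains from nests -/
theorem chain_of_nestR {T : X →L[ℂ] X} {c : ℂ} {ρ : ℝ} (hρ : 0 < ρ) (h : NestR T c ρ)
    (hacc : ∃ᶠ z in 𝓝[≠] c, z ∈ spectrum ℂ T) : InfChain T := by
  obtain ⟨V, hV, hmono, hne, -, -⟩ := h
  have hinf : {r : ℝ | r < ρ ∧ ∃ μ ∈ spectrum ℂ T, r = ‖μ - c‖}.Infinite := by
    intro hfin
    have h1 : ∀ᶠ z in 𝓝[≠] c, ‖z - c‖ ∉ {r : ℝ | r < ρ ∧ ∃ μ ∈ spectrum ℂ T, r = ‖μ - c‖} \ {0} := by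
      have hc : Tendsto (fun z : ℂ => ‖z - c‖) (𝓝[≠] c) (𝓝 0) := by
        have : Tendsto (fun z : ℂ => ‖z - c‖) (𝓝 c) (𝓝 ‖c - c‖) := by
          apply Continuous.tendsto
          fun_prop
        rw [sub_self, norm_zero] at this
        exact this.mono_left nhdsWithin_le_nhds
      exact hc.eventually ((hfin.subset Set.sdiff_subset).isClosed.isOpen_compl.mem_nhds (by simp))
    have h2 : ∀ᶠ z in 𝓝[≠] c, ‖z - c‖ < ρ := by
      refine nhdsWithin_le_nhds ?_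
      filter_upwards [Metric.ball_mem_nhds c hρ] with z hz
      rwa [mem_ball, dist_eq_norm] at hz
    have h3 : ∀ᶠ z in 𝓝[≠] c, z ≠ c := self_mem_nhdsWithin
    obtain ⟨z, hz, a1, a2, a3⟩ := (hacc.and_eventually (h1.and (h2.and h3))).exists
    apply a1
    refine ⟨⟨a2, z, hz, rfl⟩, ?_⟩
    simp only [Set.mem_singleton_iff, norm_eq_zero]
    exact sub_ne_zero.2 a3
  have : Infinite {r : ℝ | r < ρ ∧ ∃ μ ∈ spectrum ℂ T, r = ‖μ - c‖} := hinf.to_subtype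
  obtain ⟨f, hf⟩ := Infinite.exists_strictMono_or_strictAnti
    (α := {r : ℝ | r < ρ ∧ ∃ μ ∈ spectrum ℂ T, r = ‖μ - c‖})
  have hlt : ∀ n, (f n : ℝ) < ρ := fun n => (f n).2.1
  have hsp : ∀ n, ∃ μ ∈ spectrum ℂ T, (f n : ℝ) = ‖μ - c‖ := fun n => (f n).2.2
  have hpos : ∀ n, 0 ≤ (f n : ℝ) := by
    intro n
    obtain ⟨μ, -, h⟩ := hsp n
    rw [h]
    exact norm_nonneg _
  refine ⟨fun n => V (((f n : ℝ) + f (n + 1)) / 2), fun n => hV _, ?_⟩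
  rcases hf with hf | hf
  · left
    refine strictMono_nat_of_lt_succ fun n => ?_
    have h1 : (f n : ℝ) < f (n + 1) := hf (Nat.lt_succ_self n)
    have h2 : (f (n + 1) : ℝ) < f (n + 1 + 1) := hf (Nat.lt_succ_self _)
    obtain ⟨μ, hμ, hμ2⟩ := hsp (n + 1)
    have h3 := hpos n
    have h4 := hpos (n + 1)
    refine lt_of_le_of_ne (hmono _ _ (by linarith)) (hne _ _ (by linarith) ⟨μ, hμ, ?_, ?_, ?_⟩)
    · rw [← hμ2]; linarith
    · rw [← hμ2]; linarith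
    · rw [← hμ2]; exact hlt _
  · right
    refine strictAnti_nat_of_succ_lt fun n => ?_
    have h1 : (f (n + 1) : ℝ) < f n := hf (Nat.lt_succ_self n)
    have h2 : (f (n + 1 + 1) : ℝ) < f (n + 1) := hf (Nat.lt_succ_self _)
    obtain ⟨μ, hμ, hμ2⟩ := hsp (n + 1)
    have h3 := hpos (n + 1)
    have h4 := hpos (n + 1 + 1)
    refine lt_of_le_of_ne (hmono _ _ (by linarith)) (hne _ _ (by linarith) ⟨μ, hμ, ?_, ?_, ?_⟩)
    · rw [← hμ2]; linarith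
    · rw [← hμ2]; linarith
    · rw [← hμ2]; exact hlt _

end Pool.Agent.V11321.HL
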