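import Pool.Agent.V11321.HL.Mul

/-!
Outer functions inside and outside a circle; good radii.
-/

set_option autoImplicit false

namespace Pool.Agent.V11321.HL

open MeasureTheory Set Metric
open Pool.Agent.W610.HY

theorem ang_eq : ang = volume.restrict (Ioo (0:ℝ) (2 * Real.pi)) := by
  unfold ang
  exact (Measure.restrict_congr_set Ioo_ae_eq_Ioc).symm

/-- reflection of the angles -/
theorem refl_mp : MeasurePreserving (fun θ : ℝ => 2 * Real.pi - θ) ang ang := by
  rw [ang_eq]
  have h := (Measure.measurePreserving_sub_left (volume : Measure ℝ) (2 * Real.pi)).restrict_preimage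
    (s := Ioo (0:ℝ) (2 * Real.pi)) measurableSet_Ioo
  have e : (fun θ : ℝ => 2 * Real.pi - θ) ⁻¹' (Ioo (0:ℝ) (2 * Real.pi)) =
      Ioo (0:ℝ) (2 * Real.pi) := by
    ext θ
    simp only [mem_preimage, mem_Ioo]
    constructor <;> rintro ⟨h1, h2⟩ <;> constructor <;> linarith
  rw [e] at h
  exact h

theorem refl_emb : MeasurableEmbedding (fun θ : ℝ => 2 * Real.pi - θ) := by
  have : (fun θ : ℝ => 2 * Real.pi - θ) = (MeasurableEquiv.subLeft (2 * Real.pi) : ℝ → ℝ) := rfl
  rw [this]
  exact MeasurableEquiv.measurableEmbedding _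

theorem cm_refl (θ : ℝ) : circleMap 0 1 (2 * Real.pi - θ) = (circleMap 0 1 θ)⁻¹ := by
  simp only [circleMap, Complex.ofReal_one, zero_add, one_mul]
  rw [← Complex.exp_neg]
  push_cast
  rw [sub_mul, Complex.exp_sub, Complex.exp_two_pi_mul_I, Complex.exp_neg, one_div]

theorem cm_scale (c : ℂ) (r θ : ℝ) : circleMap c r θ = c + r * circleMap 0 1 θ := by
  simp [circleMap]

variable {A : Type} [NormedRing A] [NormedAlgebra ℂ A] [CompleteSpace A]

/-- `log⁺` of the norm of the resolvent, infinite on the spectrum -/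
noncomputable def mr (T : A) (z : ℂ) : ENNReal := mv (resolventSet ℂ T) (fun z => resolvent T z) z

theorem mr_meas (T : A) : Measurable (mr T) :=
  Pool.Agent.W214.HY.GOOD2.mv_meas _ _ (spectrum.isOpen_resolventSet T).measurableSet
    (Fin.hMEAS A T)

omit [CompleteSpace A] in
theorem mlt_of {T : A} {c : ℂ} {r : ℝ} (hr : 0 < r) {g : ℝ → ℂ} (hg : Measurable g)
    (h : ∀ᵐ θ ∂ang, mr T (circleMap c r θ) ≠ ⊤ ∧
      ‖g θ‖ ≤ Real.exp (-(mr T (circleMap c r θ)).toReal)) : Mlt T c r g := by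
  refine ⟨hr, hg, ?_, ?_, ?_⟩
  · filter_upwards [h] with θ hθ
    exact Pool.Agent.W214.HY.GOOD2.mv_mem _ _ _ hθ.1
  · filter_upwards [h] with θ hθ
    refine hθ.2.trans ?_
    rw [Real.exp_le_one_iff]
    have := ENNReal.toReal_nonneg (a := mr T (circleMap c r θ))
    linarith
  · filter_upwards [h] with θ hθ
    have h1 := Pool.Agent.W214.HY.GOOD2.mv_mem _ _ _ hθ.1
    have h2 := hθ.2
    unfold mr at h2
    rw [Pool.Agent.W214.HY.GOOD2.mv_toReal _ _ _ h1] at h2
    exact (mul_le_mul_of_nonneg_right h2 (norm_nonneg _)).trans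
      (Pool.Agent.W214.HY.GOOD2.exp_posLog_mul _ (norm_nonneg _))

theorem exists_in (T : A) (c : ℂ) {r : ℝ} (hr : 0 < r)
    (hfin : ∫⁻ θ, mr T (circleMap c r θ) ∂ang ≠ ⊤) : ∃ h, In T c r h := by
  have hm : Measurable (fun θ : ℝ => mr T (circleMap c r θ)) :=
    (mr_meas T).comp (continuous_circleMap c r).measurable
  obtain ⟨h, hmeas, hae, hne, hvan⟩ := Fin.hOUT2 _ hm hfin
  have hr0 : (r : ℂ) ≠ 0 := by exact_mod_cast hr.ne'
  have hnorm : ∀ w : ℂ, ‖(w - c) / (r : ℂ)‖ = ‖w - c‖ / r := by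
    intro w
    rw [norm_div, Complex.norm_real, Real.norm_eq_abs, abs_of_pos hr]
  have hCI : ∀ w, CI c r h w = (r : ℂ)⁻¹ * ∫ θ in (0:ℝ)..(2 * Real.pi),
        h θ * (circleMap 0 1 θ / (circleMap 0 1 θ - (w - c) / (r : ℂ))) := by
    intro w
    rw [← Pool.Agent.W214.HY.GOOD2.scale hr, intervalIntegral.integral_of_le Real.two_pi_pos.le]
    rfl
  refine ⟨h, mlt_of hr hmeas hae, fun w hw => ?_, fun w hw => ?_⟩
  · rw [hCI]
    have h1 : 1 < ‖(w - c) / (r : ℂ)‖ := by
      rw [hnorm, lt_div_iff₀ hr, one_mul]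
      exact hw
    rw [hvan _ h1, mul_zero]
  · rw [hCI]
    have h1 : ‖(w - c) / (r : ℂ)‖ < 1 := by
      rw [hnorm, div_lt_iff₀ hr, one_mul]
      exact hw
    exact mul_ne_zero (inv_ne_zero hr0) (hne _ h1)

theorem exists_out (T : A) (c : ℂ) {r : ℝ} (hr : 0 < r)
    (hfin : ∫⁻ θ, mr T (circleMap c r θ) ∂ang ≠ ⊤) : ∃ g κ, Out T c r g κ := by
  have hm : Measurable (fun θ : ℝ => mr T (circleMap c r (2 * Real.pi - θ))) :=
    ((mr_meas T).comp (continuous_circleMap c r).measurable).comp (measurable_const.sub measurable_id)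
  have hfin' : ∫⁻ θ in Ioc (0:ℝ) (2 * Real.pi), mr T (circleMap c r (2 * Real.pi - θ)) ≠ ⊤ := by
    have := refl_mp.lintegral_comp ((mr_meas T).comp (continuous_circleMap c r).measurable)
    change ∫⁻ θ, mr T (circleMap c r (2 * Real.pi - θ)) ∂ang ≠ ⊤
    simp only [Function.comp_apply] at this
    rw [this]
    exact hfin
  obtain ⟨h, hmeas, hae, hne, hvan⟩ := Fin.hOUT2 _ hm hfin'
  have hr0 : (r : ℂ) ≠ 0 := by exact_mod_cast hr.ne'
  have hint : Integrable h ang := by
    refine Integrable.of_bound (C := 1) hmeas.aestronglyMeasurable ?_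
    filter_upwards [hae] with θ hθ
    refine hθ.2.trans ?_
    rw [Real.exp_le_one_iff]
    have := ENNReal.toReal_nonneg (a := mr T (circleMap c r (2 * Real.pi - θ)))
    linarith
  -- the integral over the reflected angles
  have hrefl : ∀ w, CI c r (fun θ => h (2 * Real.pi - θ)) w =
      ∫ φ, h φ * (1 / (r - (w - c) * circleMap 0 1 φ)) ∂ang := by
    intro w
    unfold CI
    rw [← refl_mp.integral_comp refl_emb]
    refine integral_congr_ae (Filter.Eventually.of_forall fun φ => ?_)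
    simp only
    rw [sub_sub_cancel, cm_scale c r (2 * Real.pi - φ), cm_refl]
    congr 1
    have hu : circleMap 0 1 φ ≠ 0 := circleMap_ne_center one_ne_zero
    have e : c + r * (circleMap 0 1 φ)⁻¹ - w = (r - (w - c) * circleMap 0 1 φ) *
        (circleMap 0 1 φ)⁻¹ := by
      field_simp
      ring
    rw [e, one_div, div_mul_eq_div_div_swap, div_self (inv_ne_zero hu), one_div]
  -- the formula
  have hform : ∀ w, w ≠ c → ‖w - c‖ ≠ r → CI c r (fun θ => h (2 * Real.pi - θ)) w =
      (r : ℂ)⁻¹ * ((∫ φ, h φ ∂ang) - ∫ φ in (0:ℝ)..(2 * Real.pi),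
        h φ * (circleMap 0 1 φ / (circleMap 0 1 φ - r / (w - c)))) := by
    intro w hwc hwr
    have hv : w - c ≠ 0 := sub_ne_zero.2 hwc
    have hgap : ∀ φ, circleMap 0 1 φ - r / (w - c) ≠ 0 := by
      intro φ h0
      have h1 := congrArg norm (sub_eq_zero.1 h0)
      rw [cm_norm, norm_div, Complex.norm_real, Real.norm_eq_abs, abs_of_pos hr] at h1
      have h2 : 0 < ‖w - c‖ := norm_pos_iff.2 hv
      rw [eq_div_iff h2.ne', one_mul] at h1
      exact hwr h1
    have hint2 : Integrable (fun φ => h φ * (circleMap 0 1 φ / (circleMap 0 1 φ - r / (w - c))))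
        ang := by
      have hδ : 0 < |‖r / (w - c)‖ - 1| := by
        refine abs_pos.2 (sub_ne_zero.2 ?_)
        rw [norm_div, Complex.norm_real, Real.norm_eq_abs, abs_of_pos hr]
        intro h1
        have h2 : 0 < ‖w - c‖ := norm_pos_iff.2 hv
        rw [div_eq_iff h2.ne', one_mul] at h1
        exact hwr h1.symm
      refine Integrable.of_bound (C := |‖r / (w - c)‖ - 1|⁻¹) ?_ ?_
      · exact (hmeas.mul ((continuous_circleMap 0 1).measurable.div
          ((continuous_circleMap 0 1).measurable.sub_const _))).aestronglyMeasurable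
      · filter_upwards [hae] with φ hφ
        rw [norm_mul, norm_div, cm_norm, one_div]
        have h1 : ‖h φ‖ ≤ 1 := by
          refine hφ.2.trans ?_
          rw [Real.exp_le_one_iff]
          have := ENNReal.toReal_nonneg (a := mr T (circleMap c r (2 * Real.pi - φ)))
          linarith
        have h2 : |‖r / (w - c)‖ - 1| ≤ ‖circleMap 0 1 φ - r / (w - c)‖ := by
          have h3 := gap (c := 0) one_pos (r / (w - c)) φ
          rw [sub_zero] at h3
          exact h3
        calc ‖h φ‖ * ‖circleMap 0 1 φ - r / (w - c)‖⁻¹ ≤ 1 * |‖r / (w - c)‖ - 1|⁻¹ :=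
              mul_le_mul h1 (inv_anti₀ hδ h2) (by positivity) zero_le_one
          _ = _ := one_mul _
    rw [hrefl, intervalIntegral.integral_of_le Real.two_pi_pos.le]
    change _ = (r : ℂ)⁻¹ * ((∫ φ, h φ ∂ang) - ∫ φ, h φ * (circleMap 0 1 φ /
      (circleMap 0 1 φ - r / (w - c))) ∂ang)
    rw [← integral_sub hint hint2, ← integral_const_mul]
    refine integral_congr_ae (Filter.Eventually.of_forall fun φ => ?_)
    simp only
    have h1 := hgap φ
    have h2 : r - (w - c) * circleMap 0 1 φ ≠ 0 := by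
      intro h0
      apply h1
      rw [sub_eq_zero.1 h0]
      field_simp
      ring
    have h3 : (w - c) * circleMap 0 1 φ - r ≠ 0 := by
      intro h0
      apply h2
      linear_combination -h0
    have h4 : circleMap 0 1 φ - r / (w - c) = ((w - c) * circleMap 0 1 φ - r) / (w - c) := by
      field_simp
    rw [h4]
    field_simp
    ring
  obtain ⟨κ, hκ⟩ : ∃ κ : ℂ, κ = (r : ℂ)⁻¹ * ∫ φ, h φ ∂ang := ⟨_, rfl⟩
  have hae' : ∀ᵐ θ ∂ang, mr T (circleMap c r θ) ≠ ⊤ ∧
      ‖h (2 * Real.pi - θ)‖ ≤ Real.exp (-(mr T (circleMap c r θ)).toReal) := by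
    have := refl_mp.quasiMeasurePreserving.ae hae
    filter_upwards [this] with θ hθ
    rw [sub_sub_cancel] at hθ
    exact hθ
  refine ⟨fun θ => h (2 * Real.pi - θ), κ, mlt_of hr (hmeas.comp (measurable_const.sub
    measurable_id)) hae', fun w hw => ?_, fun w hw => ?_⟩
  · by_cases hwc : w = c
    · rw [hrefl, hwc, hκ, ← integral_const_mul]
      refine integral_congr_ae (Filter.Eventually.of_forall fun φ => ?_)
      simp only
      rw [sub_self, zero_mul, sub_zero, one_div, mul_comm]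
    · rw [hform w hwc hw.ne, hvan, sub_zero, hκ]
      have h2 : 0 < ‖w - c‖ := norm_pos_iff.2 (sub_ne_zero.2 hwc)
      rw [norm_div, Complex.norm_real, Real.norm_eq_abs, abs_of_pos hr, lt_div_iff₀ h2, one_mul]
      exact hw
  · have hwc : w ≠ c := by
      intro h0
      rw [h0, sub_self, norm_zero] at hw
      linarith
    have h2 : 0 < ‖w - c‖ := norm_pos_iff.2 (sub_ne_zero.2 hwc)
    rw [hform w hwc hw.ne', hκ, ← mul_sub, sub_sub_cancel]
    refine mul_ne_zero (inv_ne_zero hr0) (hne _ ?_)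
    rw [norm_div, Complex.norm_real, Real.norm_eq_abs, abs_of_pos hr, div_lt_iff₀ h2, one_mul]
    exact hw

/-- good radii in every interval -/
theorem circ (m : ℂ → ENNReal) (hm : Measurable m) (c : ℂ) (ρ₁ ρ : ℝ) (h0 : 0 ≤ ρ₁)
    (hρ : ρ₁ < ρ) (hfin : (∫⁻ z in ball c ρ, m z) ≠ ⊤) :
    ∃ r : ℝ, ρ₁ < r ∧ r < ρ ∧ (∫⁻ θ, m (circleMap c r θ) ∂ang) ≠ ⊤ := by
  set g : ℂ → ENNReal := (ball (0:ℂ) ρ).indicator (fun z => m (c + z)) with hg
  have hgm : Measurable g := (hm.comp (measurable_const_add c)).indicator measurableSet_ball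
  have h1 : ∫⁻ z, g z ≠ ⊤ := by
    have : ∫⁻ z, g z = ∫⁻ z in ball c ρ, m z := by
      rw [← lintegral_indicator measurableSet_ball,
        ← lintegral_add_left_eq_self ((ball c ρ).indicator fun a => m a) c]
      congr 1
      ext z
      simp [g, indicator, mem_ball, dist_eq_norm]
    rw [this]
    exact hfin
  have hcont : Continuous fun p : ℝ × ℝ => Complex.polarCoord.symm p := by
    simp only [Complex.polarCoord_symm_apply]
    fun_prop
  have hmeas : Measurable fun p : ℝ × ℝ => ENNReal.ofReal p.1 • g (Complex.polarCoord.symm p) := by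
    simp only [smul_eq_mul]
    exact (ENNReal.measurable_ofReal.comp measurable_fst).mul (hgm.comp hcont.measurable)
  have h2 := Complex.lintegral_comp_polarCoord_symm g
  rw [polarCoord_target, Measure.volume_eq_prod, ← Measure.prod_restrict,
    lintegral_prod _ hmeas.aemeasurable] at h2
  rw [← h2] at h1
  have h3 := ae_lt_top (hmeas.lintegral_prod_right' (ν := volume.restrict (Ioo (-Real.pi) Real.pi))) h1
  have h4 : ∃ r ∈ Ioo ρ₁ ρ, ∫⁻ y in Ioo (-Real.pi) Real.pi,
      ENNReal.ofReal r • g (Complex.polarCoord.symm (r, y)) < ⊤ := by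
    by_contra hcon
    push Not at hcon
    rw [ae_restrict_iff' measurableSet_Ioi, ae_iff] at h3
    have h5 : volume (Ioo ρ₁ ρ) = 0 := by
      refine measure_mono_null ?_ h3
      intro r hr
      simp only [mem_ofPred_eq, Classical.not_imp]
      exact ⟨h0.trans_lt hr.1, fun h => absurd h (not_lt.mpr (hcon r hr))⟩
    rw [Real.volume_Ioo] at h5
    simp only [ENNReal.ofReal_eq_zero] at h5
    linarith
  obtain ⟨r, hr, h5⟩ := h4
  have hr0 : 0 < r := h0.trans_lt hr.1
  refine ⟨r, hr.1, hr.2, ?_⟩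
  unfold ang
  rw [Pool.Agent.W15.HY.CIRC.shift (fun θ => m (circleMap c r θ)) (fun θ => by
    show m (circleMap c r (θ + 2 * Real.pi)) = _
    rw [periodic_circleMap c r θ])]
  have h6 : ∀ y : ℝ, g (Complex.polarCoord.symm (r, y)) = m (circleMap c r y) := by
    intro y
    have e1 : Complex.polarCoord.symm (r, y) = r * Complex.exp (y * Complex.I) := by
      rw [Complex.polarCoord_symm_apply, Complex.exp_mul_I]
      simp
    rw [e1]
    have e2 : (r : ℂ) * Complex.exp (y * Complex.I) ∈ ball (0:ℂ) ρ := by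
      rw [mem_ball, dist_zero_right, norm_mul, Complex.norm_exp_ofReal_mul_I, mul_one,
        Complex.norm_real, Real.norm_eq_abs, abs_of_pos hr0]
      exact hr.2
    rw [hg, indicator_of_mem e2]
    rfl
  have h7 : ∀ y : ℝ, ENNReal.ofReal r • g (Complex.polarCoord.symm (r, y)) =
      ENNReal.ofReal r * m (circleMap c r y) := fun y => by rw [h6, smul_eq_mul]
  simp only [h7] at h5
  rw [lintegral_const_mul' _ _ ENNReal.ofReal_ne_top] at h5
  intro htop
  rw [htop, ENNReal.mul_top] at h5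
  · exact lt_irrefl _ h5
  · exact (ENNReal.ofReal_pos.mpr hr0).ne'

end Pool.Agent.V11321.HL
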